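import Pool.Agent.Q28.HJ.Main

/-!
# Homologically trivial cycles on products of hypersurfaces over the algebraic numbers: definitions
-/

open CategoryTheory MonoidalCategory

universe v u w

namespace Pool.Agent.Q296.HY

open Pool.Agent.Q28.HJ (pow)

/-- The category `𝓜` of Chow motives over the field of algebraic numbers, with rational
coefficients, and the smooth projective hypersurfaces over this field. -/
structure ChowData (𝓜 : Type u) [Category.{v} 𝓜] where
  /-- the Lefschetz motive; `CH^m(X)` (rational coefficients) is the group `Hom(L^m, h(X))` -/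
  L : 𝓜
  /-- the smooth hypersurfaces `X` in projective spaces `ℙ^(n+1)`, `n ≥ 0` -/
  Hyp : Type w
  /-- the dimension `n` -/
  dim : Hyp → ℕ
  /-- the degree -/
  deg : Hyp → ℕ
  /-- the motive `h(X)` -/
  mot : Hyp → 𝓜
  /-- the *primitive motive* `M_X = (X, Δ - (1/d) ∑ h^j × h^(n-j))`; its cohomology is the primitive
  cohomology of `X`, of degree `n` -/
  prim : Hyp → 𝓜
  /-- the relation `Susp X W`: `X` has the equation `f(x) = 0` of degree `d ≥ 2`, and `W` is its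
  *suspension* with equation `f(x) + y_0^d + y_1^d = 0` -/
  Susp : Hyp → Hyp → Prop
  /-- the morphism acts as zero on cohomology; for `L^m ⟶ h(X)`: the cycle class is zero -/
  null : ∀ {M N : 𝓜}, (M ⟶ N) → Prop
  /-- `H^j(M) = 0` (singular cohomology with rational coefficients) -/
  HZero : ℕ → 𝓜 → Prop

namespace ChowData

variable {𝓜 : Type u} [Category.{v} 𝓜] [MonoidalCategory 𝓜] (T : ChowData.{v, u, w} 𝓜)

section

variable [Preadditive 𝓜]

/-- `CH^m_hom(M)_ℚ = 0`: all homologically trivial classes of codimension `m` are zero. -/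
def Trivial (m : ℕ) (M : 𝓜) : Prop := ∀ f : pow T.L m ⟶ M, T.null f → f = 0

/-- The question for `M`: for all `m = i + 1 ≥ 1` with `H^(2m-1)(M) = 0` one has
`CH^m_hom(M)_ℚ = 0`. -/
def Question (M : 𝓜) : Prop := ∀ i : ℕ, T.HZero (2 * i + 1) M → T.Trivial (i + 1) M

end

/-- `P` is the motive of a product `X_1 × ⋯ × X_r` of smooth hypersurfaces, of any dimensions and
degrees, `r ≥ 1`. -/
inductive IsVar : 𝓜 → Prop
  | one (X : T.Hyp) : IsVar (T.mot X)
  | tensor {P Q : 𝓜} (hP : IsVar P) (hQ : IsVar Q) : IsVar (P ⊗ Q)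

/-- `M` is a tensor product of primitive motives of smooth hypersurfaces (of any dimensions and
degrees), the sum of the dimensions being `N`; its cohomology is of degree `N`. -/
inductive IsProd : ℕ → 𝓜 → Prop
  | one (X : T.Hyp) : IsProd (T.dim X) (T.prim X)
  | tensor {a b : ℕ} {M N : 𝓜} (hM : IsProd a M) (hN : IsProd b N) : IsProd (a + b) (M ⊗ N)

variable [Preadditive 𝓜]

/-- Known facts.
* `null_comp` to `null_pow`: homologically trivial morphisms form an ideal, compatible with the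
  Tate twist; `Hom(L^i, L^j)` is `ℚ` for `i = j` and `0` for `i ≠ j`.
* `inv_L`: the Lefschetz motive is invertible.
* `decomp`: `h(X) = M_X ⊕ 1 ⊕ L ⊕ ⋯ ⊕ L^n`.
* `h_retract`, `h_twist`, `h_odd`: cohomology of direct summands and twists; the cohomology of `X` of
  odd degree is zero outside of the degree `dim X`.
* `zero`: if the primitive cohomology of `X` is zero then `X` is a hyperplane or a quadric of odd
  dimension and `M_X = 0`.
* `codim_zero`, `eff`: cycles of codimension zero are sums of fundamental classes, there are no cycles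
  of negative codimension.
* `join` (Shioda, Katsura): for smooth hypersurfaces `X : f(x) = 0` and `Y : g(y) = 0` of the same
  degree `d`, `M_X ⊗ M_Y ⊗ L` is a direct summand of `M_W`, `W : f(x) + g(y) = 0`.
* `susp`, `susp_prop`: the case where `Y` consists of `d ≥ 2` points, so that `M_Y` is a sum of
  `d - 1` copies of the unit motive.
* `cover`: for a smooth hypersurface `X : f(x) = 0`, in general coordinates, and `e ≥ 1` the
  hypersurface `X' : f(x_0^e, x_1^e, …) = 0` is smooth and has a finite morphism to `X`. -/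
structure Facts : Prop where
  null_comp : ∀ {M N P : 𝓜} (f : M ⟶ N) (g : N ⟶ P), T.null f → T.null (f ≫ g)
  comp_null : ∀ {M N P : 𝓜} (f : M ⟶ N) (g : N ⟶ P), T.null g → T.null (f ≫ g)
  null_twist : ∀ {M N : 𝓜} (f : M ⟶ N), T.null (f ▷ T.L) ↔ T.null f
  null_pow : ∀ (i j : ℕ) (f : pow T.L i ⟶ pow T.L j), T.null f → f = 0
  inv_L : ∃ L' : 𝓜, Nonempty (T.L ⊗ L' ≅ 𝟙_ 𝓜)
  decomp : ∀ X : T.Hyp, ∃ (a₀ : T.mot X ⟶ T.prim X) (b₀ : T.prim X ⟶ T.mot X)
    (a : ∀ j : Fin (T.dim X + 1), T.mot X ⟶ pow T.L j)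
    (b : ∀ j : Fin (T.dim X + 1), pow T.L j ⟶ T.mot X),
      b₀ ≫ a₀ = 𝟙 _ ∧ (∀ j, b j ≫ a j = 𝟙 _) ∧ a₀ ≫ b₀ + ∑ j, a j ≫ b j = 𝟙 _
  h_retract : ∀ {M N : 𝓜} (j : ℕ), Nonempty (Retract M N) → T.HZero j N → T.HZero j M
  h_twist : ∀ {M : 𝓜} (j : ℕ), T.HZero (j + 2) (M ⊗ T.L) → T.HZero j M
  h_odd : ∀ (X : T.Hyp) (j : ℕ), Odd j → j ≠ T.dim X → T.HZero j (T.mot X)
  zero : ∀ {N : ℕ} {M : 𝓜}, T.IsProd N M → T.HZero N M → ∀ (i : ℕ) (f : pow T.L i ⟶ M), f = 0
  codim_zero : ∀ {N : ℕ} {M : 𝓜}, T.IsProd N M → ∀ f : pow T.L 0 ⟶ M, T.null f → f = 0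
  eff : ∀ {N : ℕ} {M : 𝓜}, T.IsProd N M → ∀ i s : ℕ, i < s →
    ∀ f : pow T.L i ⟶ M ⊗ pow T.L s, f = 0
  join : ∀ X Y : T.Hyp, T.deg X = T.deg Y → ∃ W, T.deg W = T.deg X ∧
    T.dim W = T.dim X + T.dim Y + 2 ∧
      Nonempty (Retract ((T.prim X ⊗ T.prim Y) ⊗ T.L) (T.prim W))
  susp : ∀ X : T.Hyp, 2 ≤ T.deg X → ∃ W, T.Susp X W
  susp_prop : ∀ X W : T.Hyp, T.Susp X W → T.deg W = T.deg X ∧ T.dim W = T.dim X + 2 ∧
    Nonempty (Retract (T.prim X ⊗ T.L) (T.prim W))
  cover : ∀ (X : T.Hyp) (e : ℕ), 0 < e → ∃ X', T.deg X' = T.deg X * e ∧ T.dim X' = T.dim X ∧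
    Nonempty (Retract (T.prim X) (T.prim X'))
  deg_pos : ∀ X : T.Hyp, 0 < T.deg X

end ChowData

/-- The set `S` of pairs `(n, d)` contains, for all `N, D ≥ 1` and for each parity, a pair `(n, d)`
with `n ≥ N` of the given parity and `d ≥ 1` divisible by `D`. -/
def BothCofinal (S : Set (ℕ × ℕ)) : Prop :=
  ∀ r N D : ℕ, 0 < D → ∃ p ∈ S, p.1 % 2 = r % 2 ∧ N ≤ p.1 ∧ D ∣ p.2 ∧ 0 < p.2

end Pool.Agent.Q296.HY
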