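import Pool.Agent.Q296.HY.Defs
import Pool.Agent.Q296.FF.Main

/-!
# Homologically trivial cycles on products of hypersurfaces over the algebraic numbers
-/

open CategoryTheory MonoidalCategory

universe v u w

namespace Pool.Agent.Q296.HY

open Pool.Agent.Q28.HJ (pow powAdd retRight retLeft retIso shuffle)
open Pool.Agent.Q296.FF (inv_pow inv_full inv_faithful)

namespace ChowData

variable {𝓜 : Type u} [Category.{v} 𝓜] [MonoidalCategory 𝓜] {T : ChowData.{v, u, w} 𝓜}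
  [Preadditive 𝓜]

/-- iterated suspensions -/
lemma susps (hT : T.Facts) {X : T.Hyp} (hd : 2 ≤ T.deg X) (k : ℕ) :
    ∃ W, Relation.ReflTransGen T.Susp X W ∧ T.deg W = T.deg X ∧
      T.dim W = T.dim X + 2 * k ∧ Nonempty (Retract (T.prim X ⊗ pow T.L k) (T.prim W)) := by
  induction k with
  | zero => exact ⟨X, .refl, rfl, rfl, ⟨retIso (ρ_ _)⟩⟩
  | succ k ih =>
    obtain ⟨W, h, a2, a3, ⟨R⟩⟩ := ih
    obtain ⟨W', h'⟩ := hT.susp W (a2 ▸ hd)
    obtain ⟨b2, b3, ⟨Q⟩⟩ := hT.susp_prop W W' h'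
    refine ⟨W', h.tail h', b2.trans a2, by omega, ⟨?_⟩⟩
    exact ((retIso (α_ _ _ _).symm).trans (retRight R T.L)).trans Q

/-- products of primitive motives are dominated by hypersurfaces -/
lemma prod_retract [BraidedCategory 𝓜] (hT : T.Facts) {N : ℕ} {M : 𝓜} (h : T.IsProd N M) :
    ∃ D : ℕ, 0 < D ∧ ∀ E : ℕ, 0 < E → ∃ (W : T.Hyp) (s : ℕ), T.deg W = D * E ∧
      T.dim W = N + 2 * s ∧ Nonempty (Retract (M ⊗ pow T.L s) (T.prim W)) := by
  induction h with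
  | one X =>
    refine ⟨T.deg X, hT.deg_pos X, fun E hE => ?_⟩
    obtain ⟨X', h2, h3, ⟨R⟩⟩ := hT.cover X E hE
    exact ⟨X', 0, h2, by omega, ⟨(retIso (ρ_ _)).trans R⟩⟩
  | @tensor a b M N _ _ ih₁ ih₂ =>
    obtain ⟨D₁, hD₁, H₁⟩ := ih₁
    obtain ⟨D₂, hD₂, H₂⟩ := ih₂
    refine ⟨D₁ * D₂, Nat.mul_pos hD₁ hD₂, fun E hE => ?_⟩
    obtain ⟨W₁, s, a2, a3, ⟨R₁⟩⟩ := H₁ (D₂ * E) (Nat.mul_pos hD₂ hE)
    obtain ⟨W₂, t, b2, b3, ⟨R₂⟩⟩ := H₂ (D₁ * E) (Nat.mul_pos hD₁ hE)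
    obtain ⟨W, c2, c3, ⟨R⟩⟩ := hT.join W₁ W₂ (by rw [a2, b2]; ring)
    refine ⟨W, s + t + 1, by rw [c2, a2]; ring, by omega, ⟨?_⟩⟩
    have e₁ : (M ⊗ N) ⊗ pow T.L (s + t + 1) ≅ ((M ⊗ N) ⊗ pow T.L (s + t)) ⊗ T.L :=
      (α_ _ _ _).symm
    have e₂ : (M ⊗ N) ⊗ pow T.L (s + t) ≅ (M ⊗ pow T.L s) ⊗ (N ⊗ pow T.L t) :=
      (tensorLeft (M ⊗ N)).mapIso (powAdd T.L s t) ≪≫ (shuffle M _ N _).symm
    have R₃ : Retract ((M ⊗ pow T.L s) ⊗ (N ⊗ pow T.L t)) (T.prim W₁ ⊗ T.prim W₂) :=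
      (retRight R₁ _).trans (retLeft R₂ _)
    exact ((retIso e₁).trans (retRight ((retIso e₂).trans R₃) T.L)).trans R

lemma null_pow_twist (hT : T.Facts) {M N : 𝓜} (f : M ⟶ N) (k : ℕ) :
    T.null (f ▷ pow T.L k) ↔ T.null f := by
  induction k with
  | zero =>
    constructor
    · intro h
      have e : f = (ρ_ M).inv ≫ (f ▷ 𝟙_ 𝓜) ≫ (ρ_ N).hom := by simp
      rw [e]
      exact hT.comp_null _ _ (hT.null_comp _ _ h)
    · intro h
      have e : f ▷ 𝟙_ 𝓜 = (ρ_ M).hom ≫ f ≫ (ρ_ N).inv := by simp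
      change T.null (f ▷ 𝟙_ 𝓜)
      rw [e]
      exact hT.comp_null _ _ (hT.null_comp _ _ h)
  | succ k ih =>
    rw [← ih, ← hT.null_twist (f ▷ pow T.L k)]
    change T.null (f ▷ (pow T.L k ⊗ T.L)) ↔ _
    constructor
    · intro h
      have e : (f ▷ pow T.L k) ▷ T.L = (α_ _ _ _).hom ≫ (f ▷ (pow T.L k ⊗ T.L)) ≫ (α_ _ _ _).inv := by
        simp
      rw [e]
      exact hT.comp_null _ _ (hT.null_comp _ _ h)
    · intro h
      rw [whiskerRight_tensor]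
      exact hT.comp_null _ _ (hT.null_comp _ _ h)

lemma trivial_retract (hT : T.Facts) {M N : 𝓜} (R : Retract M N) {m : ℕ} (h : T.Trivial m N) :
    T.Trivial m M := by
  intro f hf
  have : f = (f ≫ R.i) ≫ R.r := by rw [Category.assoc, R.retract, Category.comp_id]
  rw [this, h (f ≫ R.i) (hT.null_comp _ _ hf), Limits.zero_comp]

variable [MonoidalPreadditive 𝓜] [BraidedCategory 𝓜]

lemma exists_inv (hT : T.Facts) (k : ℕ) : ∃ P' : 𝓜, Nonempty (pow T.L k ⊗ P' ≅ 𝟙_ 𝓜) := by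
  obtain ⟨L', ⟨e⟩⟩ := hT.inv_L
  exact inv_pow e k

/-- `CH^i_hom(M) = CH^(i+k)_hom(M ⊗ L^k)` -/
lemma trivial_twist (hT : T.Facts) {M : 𝓜} (i k : ℕ) :
    T.Trivial (i + k) (M ⊗ pow T.L k) ↔ T.Trivial i M := by
  obtain ⟨P', ⟨e⟩⟩ := exists_inv hT k
  constructor
  · intro h f hf
    have h1 := h ((powAdd T.L i k).hom ≫ f ▷ pow T.L k)
      (hT.comp_null _ _ ((null_pow_twist hT f k).2 hf))
    have h2 : f ▷ pow T.L k = 0 := by
      rw [← cancel_epi (powAdd T.L i k).hom, h1, Limits.comp_zero]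
    refine inv_faithful e _ _ ?_
    rw [h2, MonoidalPreadditive.zero_whiskerRight]
  · intro h g hg
    obtain ⟨f, hf⟩ := inv_full e ((powAdd T.L i k).inv ≫ g)
    have h1 : T.null f := by
      rw [← null_pow_twist hT f k, hf]
      exact hT.comp_null _ _ hg
    have h2 := h f h1
    rw [h2, MonoidalPreadditive.zero_whiskerRight] at hf
    rw [← cancel_epi (powAdd T.L i k).inv, ← hf, Limits.comp_zero]

/-- choice of the pair `(n, d)` -/
lemma choose_pair {S : Set (ℕ × ℕ)} (hS : BothCofinal S) {ω φ : ℕ → ℕ}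
    (hω : Filter.Tendsto ω Filter.atTop Filter.atTop)
    (hφ : Filter.Tendsto φ Filter.atTop Filter.atTop) (a i D : ℕ) (hD : 0 < D) :
    ∃ n d k : ℕ, (n, d) ∈ S ∧ D ∣ d ∧ 0 < d ∧ n = a + 2 * k ∧ a ≤ ω n ∧
      2 * (i + k) ≤ n + φ n ∧ n ≤ 2 * (i + k) + φ n := by
  obtain ⟨N₀, hN₀⟩ := Filter.eventually_atTop.1 (hω.eventually_ge_atTop a)
  obtain ⟨N₁, hN₁⟩ := Filter.eventually_atTop.1 (hφ.eventually_ge_atTop (a + 2 * i))
  obtain ⟨⟨n, d⟩, hp, hpar, hn, hdvd, hd⟩ := hS a (N₀ + N₁ + a) D hD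
  simp only at hpar hn hdvd hd
  have h0 := hN₀ n (by omega)
  have h1 := hN₁ n (by omega)
  exact ⟨n, d, (n - a) / 2, hp, hdvd, hd, by omega, h0, by omega, by omega⟩

lemma mot_retract (hT : T.Facts) (X : T.Hyp) : Nonempty (Retract (T.prim X) (T.mot X)) := by
  obtain ⟨a₀, b₀, a, b, h1, -, -⟩ := hT.decomp X
  exact ⟨⟨b₀, a₀, h1⟩⟩

/-- the vanishing for tensor products of primitive motives from almost diagonal hypersurfaces -/
lemma prod_of_diagonal (hT : T.Facts) (S : Set (ℕ × ℕ)) (hS : BothCofinal S) (ω φ : ℕ → ℕ)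
    (hω : Filter.Tendsto ω Filter.atTop Filter.atTop)
    (hφ : Filter.Tendsto φ Filter.atTop Filter.atTop)
    (h : ∀ X W : T.Hyp, Relation.ReflTransGen T.Susp X W → (T.dim W, T.deg W) ∈ S →
      T.dim X ≤ ω (T.dim W) → ∀ m, 2 * m ≠ T.dim W + 1 → 2 * m ≤ T.dim W + φ (T.dim W) →
        T.dim W ≤ 2 * m + φ (T.dim W) → T.Trivial m (T.mot W)) {N : ℕ} {M : 𝓜}
    (hM : T.IsProd N M) (i : ℕ) (hi : 2 * i ≠ N + 1) : T.Trivial i M := by
  obtain ⟨D, hD, H⟩ := prod_retract hT hM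
  obtain ⟨W₁, s, a1, a2, ⟨R⟩⟩ := H 2 two_pos
  obtain ⟨n, d, k, h1, h2, h3, h4, h5, h6, h7⟩ := choose_pair hS hω hφ (T.dim W₁) (i + s)
    (T.deg W₁) (hT.deg_pos W₁)
  obtain ⟨e, he⟩ := h2
  have he0 : 0 < e := by
    rcases Nat.eq_zero_or_pos e with h0 | h0
    · rw [h0] at he; omega
    · exact h0
  obtain ⟨W₂, b1, b2, ⟨R₂⟩⟩ := hT.cover W₁ e he0
  have hd2 : 2 ≤ T.deg W₂ := by
    rw [b1, a1]
    calc 2 ≤ 1 * 2 * 1 := by omega
      _ ≤ D * 2 * e := Nat.mul_le_mul (Nat.mul_le_mul_right _ hD) he0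
  obtain ⟨W, c1, c2, c3, ⟨R₃⟩⟩ := susps hT hd2 k
  obtain ⟨R₄⟩ := mot_retract hT W
  have hW : T.Trivial (i + s + k) (T.mot W) := by
    refine h W₂ W c1 ?_ ?_ _ ?_ ?_ ?_
    · rw [show T.dim W = n by omega, show T.deg W = d by rw [c2, b1, he]]
      exact h1
    · rw [show T.dim W = n by omega, b2]; exact h5
    · omega
    · rw [show T.dim W = n by omega]; exact h6
    · rw [show T.dim W = n by omega]; exact h7
  have h8 := (trivial_twist hT (i + s) k).1 (trivial_retract hT (R₃.trans R₄) hW)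
  exact (trivial_twist hT i s).1 (trivial_retract hT (R.trans R₂) h8)

/-- the summands in the decomposition of the motive of a product of hypersurfaces -/
def Piece (T : ChowData.{v, u, w} 𝓜) (A : 𝓜) : Prop :=
  (∃ s : ℕ, Nonempty (A ≅ pow T.L s)) ∨
    ∃ (N s : ℕ) (M : 𝓜), T.IsProd N M ∧ Nonempty (A ≅ M ⊗ pow T.L s)

lemma piece_tensor {A B : 𝓜} (hA : Piece T A) (hB : Piece T B) : Piece T (A ⊗ B) := by
  rcases hA with ⟨s, ⟨e⟩⟩ | ⟨N, s, M, hM, ⟨e⟩⟩ <;> rcases hB with ⟨t, ⟨f⟩⟩ | ⟨N', t, M', hM', ⟨f⟩⟩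
  · exact Or.inl ⟨s + t, ⟨whiskerRightIso e _ ≪≫ whiskerLeftIso _ f ≪≫ (powAdd T.L s t).symm⟩⟩
  · refine Or.inr ⟨N', t + s, M', hM', ⟨?_⟩⟩
    exact whiskerRightIso e _ ≪≫ whiskerLeftIso _ f ≪≫ β_ _ _ ≪≫ α_ _ _ _ ≪≫
      whiskerLeftIso _ (powAdd T.L t s).symm
  · refine Or.inr ⟨N, s + t, M, hM, ⟨?_⟩⟩
    exact whiskerRightIso e _ ≪≫ whiskerLeftIso _ f ≪≫ α_ _ _ _ ≪≫
      whiskerLeftIso _ (powAdd T.L s t).symm
  · refine Or.inr ⟨N + N', s + t, M ⊗ M', .tensor hM hM', ⟨?_⟩⟩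
    exact whiskerRightIso e _ ≪≫ whiskerLeftIso _ f ≪≫ shuffle M _ M' _ ≪≫
      whiskerLeftIso _ (powAdd T.L s t).symm

/-- a finite direct sum decomposition into pieces -/
def Decomposed (T : ChowData.{v, u, w} 𝓜) (P : 𝓜) : Prop :=
  ∃ (ι : Type) (_ : Fintype ι) (A : ι → 𝓜) (a : ∀ j, P ⟶ A j) (b : ∀ j, A j ⟶ P),
    (∀ j, Piece T (A j)) ∧ (∀ j, b j ≫ a j = 𝟙 _) ∧ ∑ j, a j ≫ b j = 𝟙 _

lemma decomposed_var (hT : T.Facts) {P : 𝓜} (hP : T.IsVar P) : Decomposed T P := by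
  induction hP with
  | one X =>
    obtain ⟨a₀, b₀, a, b, h1, h2, h3⟩ := hT.decomp X
    refine ⟨Option (Fin (T.dim X + 1)), inferInstance,
      fun o => o.elim (T.prim X) (fun j => pow T.L j),
      fun o => match o with
        | none => a₀
        | some j => a j,
      fun o => match o with
        | none => b₀
        | some j => b j, ?_, ?_, ?_⟩
    · rintro (_ | j)
      · exact Or.inr ⟨_, 0, _, .one X, ⟨(ρ_ _).symm⟩⟩
      · exact Or.inl ⟨j, ⟨Iso.refl _⟩⟩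
    · rintro (_ | j)
      · exact h1
      · exact h2 j
    · rw [Fintype.sum_option]
      exact h3
  | @tensor P Q _ _ ih₁ ih₂ =>
    obtain ⟨ι, _, A, a, b, h1, h2, h3⟩ := ih₁
    obtain ⟨κ, _, B, c, d, k1, k2, k3⟩ := ih₂
    refine ⟨ι × κ, inferInstance, fun x => A x.1 ⊗ B x.2, fun x => a x.1 ⊗ₘ c x.2,
      fun x => b x.1 ⊗ₘ d x.2, fun x => piece_tensor (h1 _) (k1 _), fun x => ?_, ?_⟩
    · rw [tensorHom_comp_tensorHom, h2, k2, id_tensorHom_id]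
    · rw [Fintype.sum_prod_type]
      have h4 : ∀ (x : ι) (y : κ), (a x ⊗ₘ c y) ≫ (b x ⊗ₘ d y) = (a x ≫ b x) ⊗ₘ (c y ≫ d y) :=
        fun x y => by rw [tensorHom_comp_tensorHom]
      simp only [h4]
      have h5 : ∀ x : ι, ∑ y : κ, (a x ≫ b x) ⊗ₘ (c y ≫ d y) = (a x ≫ b x) ⊗ₘ 𝟙 Q :=
        fun x => by rw [← tensor_sum, k3]
      simp only [h5]
      rw [← sum_tensor, h3, id_tensorHom_id]

/-- cohomology of twists -/
lemma h_twist_pow (hT : T.Facts) {M : 𝓜} (j k : ℕ) (h : T.HZero (j + 2 * k) (M ⊗ pow T.L k)) :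
    T.HZero j M := by
  induction k generalizing M with
  | zero => exact hT.h_retract j ⟨retIso (ρ_ M).symm⟩ h
  | succ k ih =>
    refine ih (hT.h_twist _ (hT.h_retract _ ⟨retIso (α_ _ _ _)⟩ ?_))
    have e : j + 2 * k + 2 = j + 2 * (k + 1) := by ring
    rw [e]
    exact h

/-- the question for products of hypersurfaces from the vanishing for primitive motives -/
lemma question_of_prod (hT : T.Facts)
    (h : ∀ (N : ℕ) (M : 𝓜), T.IsProd N M → ∀ i, 2 * i ≠ N + 1 → T.Trivial i M) {P : 𝓜}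
    (hP : T.IsVar P) : T.Question P := by
  intro i hi f hf
  obtain ⟨ι, _, A, a, b, h1, h2, h3⟩ := decomposed_var hT hP
  have key : ∀ j, f ≫ a j = 0 := by
    intro j
    have hA : T.HZero (2 * i + 1) (A j) := hT.h_retract _ ⟨⟨b j, a j, h2 j⟩⟩ hi
    have hg : T.null (f ≫ a j) := hT.null_comp _ _ hf
    rcases h1 j with ⟨s, ⟨e⟩⟩ | ⟨N, s, M, hM, ⟨e⟩⟩
    · have h4 := hT.null_pow _ _ ((f ≫ a j) ≫ e.hom) (hT.null_comp _ _ hg)
      rw [← cancel_mono e.hom, h4, Limits.zero_comp]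
    · rw [← cancel_mono e.hom, Limits.zero_comp]
      have hg' : T.null ((f ≫ a j) ≫ e.hom) := hT.null_comp _ _ hg
      have hM' : T.HZero (2 * i + 1) (M ⊗ pow T.L s) :=
        hT.h_retract _ ⟨retIso e.symm⟩ hA
      rcases lt_or_ge (i + 1) s with hs | hs
      · exact hT.eff hM _ _ hs _
      · obtain ⟨t, ht⟩ := Nat.exists_eq_add_of_le' hs
        have h5 : T.Trivial t M := by
          rcases Nat.eq_zero_or_pos t with h0 | h0
          · subst h0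
            exact fun g hg0 => hT.codim_zero hM g hg0
          · by_cases h6 : 2 * t = N + 1
            · refine fun g _ => hT.zero hM ?_ t g
              have e1 : 2 * i + 1 = N + 2 * s := by omega
              rw [e1] at hM'
              exact h_twist_pow hT N s hM'
            · exact h N M hM t h6
        have h7 : T.Trivial (i + 1) (M ⊗ pow T.L s) := by
          rw [ht]
          exact (trivial_twist hT t s).2 h5
        exact h7 _ hg'
  have e : f = f ≫ 𝟙 P := (Category.comp_id _).symm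
  rw [e, ← h3, Preadditive.comp_sum]
  exact Finset.sum_eq_zero (fun j _ => by rw [← Category.assoc, key, Limits.zero_comp])

/-- main theorem -/
theorem final (hT : T.Facts) (S : Set (ℕ × ℕ)) (hS : BothCofinal S) (ω φ : ℕ → ℕ)
    (hω : Filter.Tendsto ω Filter.atTop Filter.atTop)
    (hφ : Filter.Tendsto φ Filter.atTop Filter.atTop) :
    [∀ X W : T.Hyp, Relation.ReflTransGen T.Susp X W → (T.dim W, T.deg W) ∈ S →
        T.dim X ≤ ω (T.dim W) → ∀ m, 2 * m ≠ T.dim W + 1 → 2 * m ≤ T.dim W + φ (T.dim W) →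
          T.dim W ≤ 2 * m + φ (T.dim W) → T.Trivial m (T.mot W),
      ∀ X : T.Hyp, T.Question (T.mot X),
      ∀ P : 𝓜, T.IsVar P → T.Question P,
      ∀ (N : ℕ) (M : 𝓜), T.IsProd N M → ∀ i, 2 * i ≠ N + 1 → T.Trivial i M].TFAE := by
  tfae_have 1 → 4 := fun h N M hM i hi => prod_of_diagonal hT S hS ω φ hω hφ h hM i hi
  tfae_have 4 → 3 := fun h P hP => question_of_prod hT h hP
  tfae_have 3 → 2 := fun h X => h _ (.one X)
  tfae_have 2 → 1 := by
    intro h X W _ _ _ m hm _ _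
    rcases Nat.eq_zero_or_pos m with h0 | h0
    · subst h0
      intro f hf
      -- cycles of codimension zero
      obtain ⟨a₀, b₀, a, b, -, -, h3⟩ := hT.decomp W
      have e : f = f ≫ 𝟙 _ := (Category.comp_id _).symm
      rw [e, ← h3, Preadditive.comp_add, Preadditive.comp_sum]
      have e1 : f ≫ a₀ = 0 := hT.codim_zero (.one W) _ (hT.null_comp _ _ hf)
      have e2 : ∀ j, f ≫ a j = 0 := fun j => hT.null_pow _ _ _ (hT.null_comp _ _ hf)
      rw [← Category.assoc, e1, Limits.zero_comp, zero_add]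
      exact Finset.sum_eq_zero (fun j _ => by rw [← Category.assoc, e2, Limits.zero_comp])
    · obtain ⟨i, rfl⟩ : ∃ i, m = i + 1 := ⟨m - 1, by omega⟩
      exact h W i (hT.h_odd W _ ⟨i, rfl⟩ (by omega))
  tfae_finish

end ChowData

end Pool.Agent.Q296.HY
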